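import Pool.Agent.Y992.DZ.Stm
import Pool.Agent.H983R2.LG.InfL
import Pool.Agent.Y514.HL.Zd

/-!
DZ-COR (project DZ of helper992): correlations of the colours in boxes.
-/

set_option autoImplicit false

namespace Pool.Agent.Y907.DZ

open Finset Pool.Agent.H983R2.GC Pool.Agent.W341.UG Pool.Agent.Y992.HL Pool.Agent.Y992.DZ

theorem box_finite (d L : ℕ) : Finite (Box d L) := by
  have h : {y : Fin d → ℤ | ∀ i, 1 ≤ y i ∧ y i ≤ L} =
      Set.Icc (fun _ : Fin d => (1 : ℤ)) (fun _ : Fin d => (L : ℤ)) := by
    ext y
    simp only [Set.mem_ofPred_eq, Set.mem_Icc, Pi.le_def]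
    exact ⟨fun h => ⟨fun i => (h i).1, fun i => (h i).2⟩, fun h i => ⟨h.1 i, h.2 i⟩⟩
  have h2 : ({y : Fin d → ℤ | ∀ i, 1 ≤ y i ∧ y i ≤ L}).Finite := by
    rw [h]
    exact Set.finite_Icc _ _
  exact h2.to_subtype

section

variable {V C : Type} [Fintype V] [DecidableEq V] [Fintype C] [DecidableEq C]

/-- symmetry of the colours -/
theorem pr_symm (G : SimpleGraph V) (c0 : C) (w : V) (b b' : C) :
    pr G c0 univ (fun _ => univ) w b = pr G c0 univ (fun _ => univ) w b' := by
  unfold pr EE
  congr 1
  refine Finset.sum_equiv (Equiv.arrowCongr (Equiv.refl V) (Equiv.swap b b')) ?_ ?_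
  · intro σ
    rw [mem_Col, mem_Col]
    simp only [mem_univ, not_true_eq_false, IsEmpty.forall_iff, implies_true, forall_const,
      true_and, Equiv.arrowCongr_apply, Equiv.refl_symm, Equiv.coe_refl, Function.comp_apply,
      id_eq, ne_eq, EmbeddingLike.apply_eq_iff_eq]
  · intro σ _
    simp only [Equiv.arrowCongr_apply, Equiv.refl_symm, Equiv.coe_refl, Function.comp_apply, id_eq]
    have : Equiv.swap b b' (σ w) = b' ↔ σ w = b := by
      rw [Equiv.swap_apply_eq_iff, Equiv.swap_apply_right]
    simp only [this]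

theorem pr_eq (G : SimpleGraph V) (c0 : C) (w : V) (b : C)
    (hne : (Col G c0 univ (fun _ => (univ : Finset C))).Nonempty) :
    pr G c0 univ (fun _ => univ) w b = 1 / (Fintype.card C : ℝ) := by
  have h1 := pr_sum G c0 univ (fun _ => univ) w hne
  have h2 : ∑ a, pr G c0 univ (fun _ => univ) w a =
      ∑ _a : C, pr G c0 univ (fun _ => univ) w b :=
    Finset.sum_congr rfl fun a _ => pr_symm G c0 w a b
  rw [h2, Finset.sum_const, card_univ, nsmul_eq_mul] at h1
  have h3 : (Fintype.card C : ℝ) ≠ 0 := by
    intro h0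
    rw [h0, zero_mul] at h1
    exact zero_ne_one h1
  field_simp
  linarith

/-- the main estimate -/
theorem cor_le (G : SimpleGraph V) (D : V → V → ℕ) (c0 : C) (s : ℕ) (M : ℝ) (u w : V)
    (huw : u ≠ w) (hs : 1 ≤ s)
    (hIB : IBD G D c0 s (Fintype.card V) (D u w) M)
    (hSl : Sl G s univ (fun _ => (univ : Finset C))) :
    |EE G c0 univ (fun _ => (univ : Finset C)) (fun σ => if σ u = σ w then 1 else 0) -
      1 / (Fintype.card C : ℝ)| ≤ M := by
  have hne : (Col G c0 univ (fun _ => (univ : Finset C))).Nonempty :=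
    col_nonempty G c0 _ _ (Sl_mono G (by omega) _ _ hSl)
  have hsum := pr_sum G c0 univ (fun _ => (univ : Finset C)) u hne
  have hp0 : ∀ b, 0 ≤ pr G c0 univ (fun _ => (univ : Finset C)) u b := fun b => pr_nonneg G c0 _ _ _ _
  -- the conditional averages
  obtain ⟨h, hh⟩ : ∃ h : C → C → ℝ, ∀ b b', h b b' = EE G c0 (univ.erase u)
      (era (fun _ => univ) (nb G univ u) b') (fun σ => if σ w = b then 1 else 0) :=
    ⟨fun b b' => _, fun _ _ => rfl⟩
  have hdiff : ∀ b b' b'', |h b b' - h b b''| ≤ M := by
    intro b b' b''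
    rw [hh, hh]
    have h1 := hIB (univ.erase u) (fun _ => univ) u b' b'' (fun σ => if σ w = b then 1 else 0) {w}
      (by rw [card_erase_of_mem (mem_univ u), card_univ]; omega) (notMem_erase u _)
      (Sl_del G s univ _ u (mem_univ u) hSl) (SlP_del G s univ _ u (mem_univ u) hSl)
      (by
        intro x hx
        rw [mem_singleton] at hx
        rw [hx, mem_erase]
        exact ⟨huw.symm, mem_univ _⟩) (by
        intro σ τ
        show |(if σ w = b then (1 : ℝ) else 0) - (if τ w = b then (1 : ℝ) else 0)| ≤ _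
        by_cases hst : σ w = τ w
        · rw [hst, sub_self, abs_zero]
          exact Nat.cast_nonneg _
        · have : ({w} : Finset V).filter (fun x => σ x ≠ τ x) = {w} := by
            rw [filter_eq_self]
            intro x hx
            rw [mem_singleton] at hx
            rw [hx]
            exact hst
          rw [this, card_singleton, Nat.cast_one]
          split_ifs <;> norm_num)
      (by
        intro x hx
        rw [mem_singleton] at hx
        rw [hx])
    rwa [nb_erase_self] at h1
  have hw : ∀ b, ∑ b', pr G c0 univ (fun _ => (univ : Finset C)) u b' * h b b' =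
      1 / (Fintype.card C : ℝ) := by
    intro b
    rw [← pr_eq G c0 w b hne]
    have h1 := il_EE_split G c0 univ (fun _ => (univ : Finset C)) u (mem_univ u)
      (fun σ => if σ w = b then 1 else 0)
    have h2 : pr G c0 univ (fun _ => univ) w b = EE G c0 univ (fun _ => (univ : Finset C))
      (fun σ => if σ w = b then 1 else 0) := rfl
    rw [h2, h1]
    refine Finset.sum_congr rfl fun b' _ => ?_
    rw [hh]
    congr 2
    funext τ
    rw [Function.update_of_ne huw.symm]
  have hmain : EE G c0 univ (fun _ => (univ : Finset C)) (fun σ => if σ u = σ w then 1 else 0) =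
      ∑ b, pr G c0 univ (fun _ => (univ : Finset C)) u b * h b b := by
    rw [il_EE_split G c0 univ (fun _ => (univ : Finset C)) u (mem_univ u)]
    refine Finset.sum_congr rfl fun b _ => ?_
    rw [hh]
    congr 2
    funext τ
    rw [Function.update_of_ne huw.symm, Function.update_self]
    by_cases hb : τ w = b
    · rw [if_pos hb.symm, if_pos hb]
    · rw [if_neg (fun e => hb e.symm), if_neg hb]
  have hone : ∀ b, |h b b - 1 / (Fintype.card C : ℝ)| ≤ M := by
    intro b
    rw [← hw b]
    have h1 : h b b - ∑ b', pr G c0 univ (fun _ => (univ : Finset C)) u b' * h b b' =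
        ∑ b', pr G c0 univ (fun _ => (univ : Finset C)) u b' * (h b b - h b b') := by
      simp only [mul_sub]
      rw [Finset.sum_sub_distrib, ← Finset.sum_mul, hsum, one_mul]
    rw [h1]
    calc |∑ b', pr G c0 univ (fun _ => (univ : Finset C)) u b' * (h b b - h b b')|
        ≤ ∑ b', |pr G c0 univ (fun _ => (univ : Finset C)) u b' * (h b b - h b b')| :=
          Finset.abs_sum_le_sum_abs _ _
      _ ≤ ∑ b', pr G c0 univ (fun _ => (univ : Finset C)) u b' * M := by
          refine Finset.sum_le_sum fun b' _ => ?_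
          rw [abs_mul, abs_of_nonneg (hp0 b')]
          exact mul_le_mul_of_nonneg_left (hdiff b b b') (hp0 b')
      _ = M := by rw [← Finset.sum_mul, hsum, one_mul]
  have h2 : (∑ b, pr G c0 univ (fun _ => (univ : Finset C)) u b * h b b) -
      1 / (Fintype.card C : ℝ) =
      ∑ b, pr G c0 univ (fun _ => (univ : Finset C)) u b * (h b b - 1 / (Fintype.card C : ℝ)) := by
    simp only [mul_sub]
    rw [Finset.sum_sub_distrib, ← Finset.sum_mul, hsum, one_mul]
  rw [hmain, h2]
  calc |∑ b, pr G c0 univ (fun _ => (univ : Finset C)) u b *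
        (h b b - 1 / (Fintype.card C : ℝ))|
      ≤ ∑ b, |pr G c0 univ (fun _ => (univ : Finset C)) u b *
        (h b b - 1 / (Fintype.card C : ℝ))| := Finset.abs_sum_le_sum_abs _ _
    _ ≤ ∑ b, pr G c0 univ (fun _ => (univ : Finset C)) u b * M := by
        refine Finset.sum_le_sum fun b _ => ?_
        rw [abs_mul, abs_of_nonneg (hp0 b)]
        exact mul_le_mul_of_nonneg_left (hone b) (hp0 b)
    _ = M := by rw [← Finset.sum_mul, hsum, one_mul]

end

/-- **DZ-COR** -/
theorem t_COR : S_COR := by
  classical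
  intro d q l A hA hl hq hZB L u w huw
  have hfin := box_finite d L
  let _ : Fintype (Box d L) := Fintype.ofFinite _
  have hq0 : 0 < q := by omega
  obtain ⟨c0, -⟩ : ∃ c0 : Fin q, c0 = c0 := ⟨⟨0, hq0⟩, rfl⟩
  have hcol : boxCol d L q = ((Col (zgr (Subtype.val : Box d L → Fin d → ℤ)) c0 univ
      (fun _ => (univ : Finset (Fin q))) : Finset (Box d L → Fin q)) :
        Set (Box d L → Fin q)) := by
    ext f
    rw [mem_coe, mem_Col]
    simp only [boxCol, Set.mem_ofPred_eq, mem_univ, not_true_eq_false, IsEmpty.forall_iff,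
      implies_true, forall_const, true_and]
    rfl
  have hcol2 : {f ∈ boxCol d L q | f u = f w} =
      (((Col (zgr (Subtype.val : Box d L → Fin d → ℤ)) c0 univ
      (fun _ => (univ : Finset (Fin q)))).filter (fun f => f u = f w) :
        Finset (Box d L → Fin q)) : Set (Box d L → Fin q)) := by
    rw [hcol]
    ext f
    simp
  have hcorr : corr d L q u w = EE (zgr (Subtype.val : Box d L → Fin d → ℤ)) c0 univ
      (fun _ => (univ : Finset (Fin q))) (fun σ => if σ u = σ w then 1 else 0) -
        1 / (Fintype.card (Fin q) : ℝ) := by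
    unfold corr EE
    rw [hcol2, hcol, Set.ncard_coe_finset, Set.ncard_coe_finset, Finset.sum_boole,
      Fintype.card_fin]
  rw [hcorr]
  have hdeg : ∀ v : Box d L, (nb (zgr (Subtype.val : Box d L → Fin d → ℤ)) univ v).card ≤ 2 * d := by
    intro v
    have h1 := Pool.Agent.Y514.HL.deg_Zd d (Box d L) (zgr Subtype.val) Subtype.val
      Subtype.val_injective (fun u w h => h) v
    have h2 : ((nb (zgr (Subtype.val : Box d L → Fin d → ℤ)) univ v : Finset (Box d L)) :
        Set (Box d L)) = (zgr (Subtype.val : Box d L → Fin d → ℤ)).neighborSet v := by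
      ext y
      rw [mem_coe, mem_nb]
      simp
    rw [← h2, Set.ncard_coe_finset] at h1
    exact h1
  refine cor_le (zgr (Subtype.val : Box d L → Fin d → ℤ))
    (fun u w => (∑ i, |u.1 i - w.1 i|).toNat) c0 (q - 2 * d) _ u w huw (by omega)
    (hZB (Box d L) Subtype.val c0 Subtype.val_injective _ _) ?_
  intro v _
  have := hdeg v
  rw [card_univ, Fintype.card_fin]
  omega

end Pool.Agent.Y907.DZ
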